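import Mathlib

/-!
A crude bound of Warren type on the number of sign patterns of a family of real polynomials.
-/

namespace Pool.Agent.Lib.SignPatterns

open MvPolynomial Finset

section Relation

variable {K : Type*} [Field K] {σ : Type*} [Fintype σ] [DecidableEq σ]

lemma exists_relation (F : σ → MvPolynomial σ K) (l : MvPolynomial σ K) (D J : ℕ)
    (hF : ∀ s, (F s).totalDegree ≤ D) (hl : l.totalDegree ≤ 1)
    (hJ : (Fintype.card σ * D + 1) ^ Fintype.card σ ≤ J) :
    ∃ c : (σ → Fin (J + 1)) × Fin (J + 1) → K, c ≠ 0 ∧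
      ∑ p, c p • ((∏ s, F s ^ (p.1 s : ℕ)) * l ^ (p.2 : ℕ)) = 0 := by
  set N := Fintype.card σ with hN
  set B := J * (N * D + 1) with hB
  let t : (σ → Fin (J + 1)) × Fin (J + 1) → MvPolynomial σ K :=
    fun p => (∏ s, F s ^ (p.1 s : ℕ)) * l ^ (p.2 : ℕ)
  have ht : ∀ p, (t p).totalDegree ≤ B := by
    intro p
    refine (totalDegree_mul _ _).trans ?_
    have h1 : (∏ s, F s ^ (p.1 s : ℕ)).totalDegree ≤ N * (J * D) := by
      refine (totalDegree_finsetProd _ _).trans ?_
      calc ∑ s, (F s ^ (p.1 s : ℕ)).totalDegree ≤ ∑ _s : σ, J * D := by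
            apply sum_le_sum
            intro s _
            refine (totalDegree_pow _ _).trans ?_
            exact Nat.mul_le_mul (Nat.lt_succ_iff.1 (p.1 s).2) (hF s)
        _ = N * (J * D) := by simp [hN]
    have h2 : (l ^ (p.2 : ℕ)).totalDegree ≤ J := by
      refine (totalDegree_pow _ _).trans ?_
      calc (p.2 : ℕ) * l.totalDegree ≤ J * 1 := Nat.mul_le_mul (Nat.lt_succ_iff.1 p.2.2) hl
        _ = J := mul_one _
    calc _ ≤ N * (J * D) + J := Nat.add_le_add h1 h2
      _ = B := by rw [hB]; ring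
  let Ψ : ((σ → Fin (J + 1)) × Fin (J + 1) → K) →ₗ[K] MvPolynomial σ K :=
    Fintype.linearCombination K t
  let Θ : MvPolynomial σ K →ₗ[K] ((σ → Fin (B + 1)) → K) :=
    LinearMap.pi fun e => lcoeff K (Finsupp.equivFunOnFinite.symm fun s => (e s : ℕ))
  have hlt : Module.finrank K ((σ → Fin (B + 1)) → K) <
      Module.finrank K ((σ → Fin (J + 1)) × Fin (J + 1) → K) := by
    simp only [Module.finrank_fintype_fun_eq_card, Fintype.card_prod, Fintype.card_fun,
      Fintype.card_fin, ← hN]
    calc (B + 1) ^ N ≤ ((J + 1) * (N * D + 1)) ^ N := by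
          apply Nat.pow_le_pow_left
          rw [hB]; nlinarith [Nat.zero_le (N * D)]
      _ = (J + 1) ^ N * (N * D + 1) ^ N := mul_pow _ _ _
      _ < (J + 1) ^ N * (J + 1) := by
          apply Nat.mul_lt_mul_of_pos_left (by omega) (by positivity)
  have hker := LinearMap.ker_ne_bot_of_finrank_lt (f := Θ ∘ₗ Ψ) hlt
  obtain ⟨c, hc, hc0⟩ := Submodule.exists_mem_ne_zero_of_ne_bot hker
  refine ⟨c, hc0, ?_⟩
  have hΨ : Ψ c = ∑ p, c p • t p := Fintype.linearCombination_apply K t c
  change ∑ p, c p • t p = 0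
  rw [← hΨ]
  have hdeg : (Ψ c).totalDegree ≤ B := by
    rw [hΨ]
    exact totalDegree_finsetSum_le fun p _ => (totalDegree_smul_le _ _).trans (ht p)
  ext m
  rw [coeff_zero]
  by_contra hm
  have hle : ∀ s, m s ≤ B := fun s =>
    (monomial_le_degreeOf s (mem_support_iff.2 hm)).trans
      ((degreeOf_le_totalDegree _ _).trans hdeg)
  have h1 : Θ (Ψ c) = 0 := hc
  have h2 := congrFun h1 fun s => ⟨m s, Nat.lt_succ_of_le (hle s)⟩
  simp only [Θ, LinearMap.pi_apply, lcoeff_apply, Pi.zero_apply] at h2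
  apply hm
  rw [← h2]
  congr 1
  ext s
  simp

lemma exists_fiber_poly (F : σ → MvPolynomial σ K) (l : MvPolynomial σ K) (D J : ℕ)
    (hF : ∀ s, (F s).totalDegree ≤ D) (hl : l.totalDegree ≤ 1)
    (hJ : (Fintype.card σ * D + 1) ^ Fintype.card σ ≤ J) :
    ∃ q : MvPolynomial σ K, q ≠ 0 ∧ ∀ (y : σ → K) (V : Finset K), J < V.card →
      (∀ v ∈ V, ∃ x : σ → K, (∀ s, eval x (F s) = y s) ∧ eval x l = v) → eval y q = 0 := by
  obtain ⟨c, hc0, hc⟩ := exists_relation F l D J hF hl hJ
  obtain ⟨⟨a₀, j₀⟩, hp⟩ := Function.ne_iff.1 hc0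
  let ex : (σ → Fin (J + 1)) → (σ →₀ ℕ) := fun a => Finsupp.equivFunOnFinite.symm fun s => (a s : ℕ)
  have hex : Function.Injective ex := by
    intro a b h
    funext s
    have := DFunLike.congr_fun h s
    simp only [ex, Finsupp.equivFunOnFinite_symm_apply_apply] at this
    exact Fin.ext this
  let q : Fin (J + 1) → MvPolynomial σ K := fun j => ∑ a, monomial (ex a) (c (a, j))
  have hq : ∀ j y, eval y (q j) = ∑ a, c (a, j) * ∏ s, y s ^ (a s : ℕ) := by
    intro j y
    simp only [q, map_sum, eval_monomial]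
    apply sum_congr rfl
    intro a _
    rw [Finsupp.prod_fintype _ _ (by simp)]
    simp [ex]
  refine ⟨q j₀, ?_, ?_⟩
  · intro h
    have h1 := congrArg (coeff (ex a₀)) h
    simp only [q, coeff_sum, coeff_monomial, hex.eq_iff, sum_ite_eq', mem_univ, if_true,
      coeff_zero] at h1
    exact hp h1
  · intro y V hV hy
    let Q : Polynomial K := ∑ j : Fin (J + 1), Polynomial.monomial (j : ℕ) (eval y (q j))
    have hQd : Q.natDegree ≤ J := by
      apply Polynomial.natDegree_sum_le_of_forall_le
      intro j _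
      exact (Polynomial.natDegree_monomial_le _).trans (Nat.lt_succ_iff.1 j.2)
    have hQ : Q = 0 := by
      apply Polynomial.eq_zero_of_natDegree_lt_card_of_eval_eq_zero' Q V _ (by omega)
      intro v hv
      obtain ⟨x, hx, hxl⟩ := hy v hv
      have h1 := congrArg (eval x) hc
      simp only [map_sum, smul_eval, map_mul, map_prod, map_pow, hx, hxl, map_zero] at h1
      simp only [Q, Polynomial.eval_finsetSum, Polynomial.eval_monomial, hq]
      rw [← h1, Fintype.sum_prod_type, sum_comm]
      apply sum_congr rfl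
      intro j _
      rw [sum_mul]
      apply sum_congr rfl
      intro a _
      ring
    have h2 := congrArg (fun P => Polynomial.coeff P (j₀ : ℕ)) hQ
    simp only [Q, Polynomial.finsetSum_coeff, Polynomial.coeff_monomial, Fin.val_inj, sum_ite_eq',
      mem_univ, if_true, Polynomial.coeff_zero] at h2
    exact h2

end Relation

section Real

variable {σ : Type*} [Fintype σ] [DecidableEq σ]

/-- If every `y` in a box has many preimages under a polynomial map, their number is bounded. -/
lemma card_le_of_fibers (F : σ → MvPolynomial σ ℝ) (D M : ℕ) (hF : ∀ s, (F s).totalDegree ≤ D)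
    {δ : ℝ} (hδ : 0 < δ)
    (h : ∀ y : σ → ℝ, (∀ s, |y s| < δ) → ∃ W : Finset (σ → ℝ), M ≤ W.card ∧
      ∀ x ∈ W, ∀ s, eval x (F s) = y s) :
    M ≤ (Fintype.card σ * D + 1) ^ Fintype.card σ := by
  classical
  by_contra hM
  push Not at hM
  let K := FractionRing (Polynomial ℝ)
  let φ : ℝ →+* K := (algebraMap (Polynomial ℝ) K).comp Polynomial.C
  have hφ : Function.Injective φ := φ.injective
  let e := Fintype.equivFin σ
  let l : MvPolynomial σ K :=
    ∑ s, C (algebraMap (Polynomial ℝ) K (Polynomial.X ^ (e s : ℕ))) * X s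
  have hl : l.totalDegree ≤ 1 := by
    apply totalDegree_finsetSum_le
    intro s _
    refine (totalDegree_mul _ _).trans ?_
    rw [totalDegree_C, totalDegree_X]
  have hF' : ∀ s, (map φ (F s)).totalDegree ≤ D := by
    intro s
    refine le_trans ?_ (hF s)
    exact Finset.sup_mono (support_map_subset φ (F s))
  obtain ⟨q, hq0, hq⟩ := exists_fiber_poly (fun s => map φ (F s)) l D _ hF' hl le_rfl
  have hlinj : Function.Injective fun x : σ → ℝ => eval (φ ∘ x) l := by
    intro x x' hxx
    have key : ∀ z : σ → ℝ, eval (φ ∘ z) l =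
        algebraMap (Polynomial ℝ) K (∑ s, Polynomial.monomial (e s : ℕ) (z s)) := by
      intro z
      simp only [l, map_sum, map_mul, eval_C, eval_X, Function.comp, φ, RingHom.comp_apply]
      apply sum_congr rfl
      intro s _
      rw [← map_mul, mul_comm, Polynomial.C_mul_X_pow_eq_monomial]
    simp only [key] at hxx
    have h1 := IsFractionRing.injective (Polynomial ℝ) K hxx
    funext s
    have h2 := congrArg (fun P => Polynomial.coeff P (e s : ℕ)) h1
    simpa only [Polynomial.finsetSum_coeff, Polynomial.coeff_monomial, Fin.val_inj,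
      e.injective.eq_iff, sum_ite_eq', mem_univ, if_true] using h2
  apply hq0
  apply funext_set (fun _ => φ '' Set.Ioo (-δ) δ)
    (fun _ => (Set.Ioo_infinite (by linarith)).image hφ.injOn)
  intro y hy
  rw [map_zero]
  choose z hz hzy using fun s => hy s (Set.mem_univ s)
  obtain ⟨W, hW, hWx⟩ := h z fun s => abs_lt.2 (hz s)
  apply hq y (W.image fun x => eval (φ ∘ x) l)
  · rw [card_image_of_injective _ hlinj]; omega
  · intro v hv
    obtain ⟨x, hx, rfl⟩ := mem_image.1 hv
    refine ⟨φ ∘ x, fun s => ?_, rfl⟩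
    rw [← hzy s, ← hWx x hx s, eval_map]
    exact (eval₂_comp_left φ (RingHom.id ℝ) x (F s)).symm

omit [Fintype σ] in
lemma hasDerivAt_update (p : MvPolynomial σ ℝ) (x : σ → ℝ) (s : σ) (t : ℝ) :
    HasDerivAt (fun u => eval (Function.update x s u) p)
      (eval (Function.update x s t) (pderiv s p)) t := by
  induction p using MvPolynomial.induction_on with
  | C a => simpa using hasDerivAt_const t a
  | add p q hp hq =>
    simp only [map_add]
    exact hp.add hq
  | mul_X p i hp =>
    have hX : HasDerivAt (fun u => Function.update x s u i)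
        (eval (Function.update x s t) (pderiv s (X i : MvPolynomial σ ℝ))) t := by
      by_cases h : i = s
      · subst h
        simp only [Function.update_self, pderiv_X_self, map_one]
        exact hasDerivAt_id t
      · simpa [pderiv_X_of_ne h, Function.update_of_ne h] using hasDerivAt_const t (x i)
    have := hp.mul hX
    rw [pderiv_mul]
    simp only [map_mul, map_add, eval_X]
    exact this

omit [Fintype σ] [DecidableEq σ] in
lemma totalDegree_pderiv_le (p : MvPolynomial σ ℝ) (s : σ) :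
    (pderiv s p).totalDegree ≤ p.totalDegree := by
  apply Finset.sup_le
  intro m hm
  rw [mem_support_iff, coeff_pderiv] at hm
  have h1 : m + Finsupp.single s 1 ∈ p.support := mem_support_iff.2 (left_ne_zero_of_mul hm)
  refine le_trans ?_ (le_totalDegree h1)
  rw [Finsupp.sum_add_index' (fun _ => rfl) (fun _ _ _ => rfl)]
  exact Nat.le_add_right _ _

variable {ι : Type*} [Fintype ι]

lemma exists_critical (f : ι → MvPolynomial σ ℝ) (R : ℝ) (x₀ : σ → ℝ)
    (hR : ∑ s, x₀ s ^ 2 < R) (hx₀ : ∀ i, eval x₀ (f i) ≠ 0) :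
    ∃ δ > 0, ∀ y : σ → ℝ, (∀ s, |y s| < δ) → ∃ x : σ → ℝ,
      (∀ i, 0 < eval x₀ (f i) * eval x (f i)) ∧
      ∀ s, eval x (pderiv s ((C R - ∑ s, X s ^ 2) * ∏ i, f i)) = y s := by
  set g : MvPolynomial σ ℝ := (C R - ∑ s, X s ^ 2) * ∏ i, f i with hg
  set w : ℝ := ∏ i, eval x₀ (f i) with hw
  have hw0 : w ≠ 0 := prod_ne_zero_iff.2 fun i _ => hx₀ i
  have hG : ∀ x : σ → ℝ, w * eval x g =
      (R - ∑ s, x s ^ 2) * ∏ i, (eval x₀ (f i) * eval x (f i)) := by
    intro x
    simp only [hg, hw, map_mul, map_sub, eval_C, map_sum, map_pow, eval_X, map_prod,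
      prod_mul_distrib]
    ring
  have hG0 : 0 < w * eval x₀ g := by
    rw [hG]
    exact mul_pos (by linarith) (prod_pos fun i _ => mul_self_pos.2 (hx₀ i))
  have hR0 : 0 < R := lt_of_le_of_lt (sum_nonneg fun s _ => sq_nonneg _) hR
  set A : ℝ := |w| * (Fintype.card σ * (R + 1)) + 1 with hA
  have hA0 : 0 < A := by positivity
  refine ⟨w * eval x₀ g / (2 * A), by positivity, ?_⟩
  intro y hy
  set δ := w * eval x₀ g / (2 * A) with hδ
  have hδ0 : 0 < δ := by positivity
  let S : Set (σ → ℝ) := {x | ∑ s, x s ^ 2 ≤ R ∧ ∀ i, 0 ≤ eval x₀ (f i) * eval x (f i)}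
  have hbd : ∀ x : σ → ℝ, ∑ s, x s ^ 2 ≤ R → ∀ s, |x s| ≤ R + 1 := by
    intro x hx s
    have h1 : x s ^ 2 ≤ R :=
      (single_le_sum (f := fun s => x s ^ 2) (fun s _ => sq_nonneg _) (mem_univ s)).trans hx
    rw [abs_le]
    constructor <;> nlinarith
  have hSclosed : IsClosed S := by
    apply IsClosed.inter
    · change IsClosed {x : σ → ℝ | ∑ s, x s ^ 2 ≤ R}
      exact isClosed_le (by fun_prop) continuous_const
    · change IsClosed {x : σ → ℝ | ∀ i, 0 ≤ eval x₀ (f i) * eval x (f i)}
      rw [Set.ofPred_forall]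
      exact isClosed_iInter fun i =>
        isClosed_le continuous_const (continuous_const.mul (f i).continuous_eval)
  have hScomp : IsCompact S := by
    refine (isCompact_univ_pi fun _ : σ => isCompact_Icc (a := -(R + 1)) (b := R + 1)).of_isClosed_subset
      hSclosed ?_
    intro x hx s _
    exact abs_le.1 (hbd x hx.1 s)
  have hx₀S : x₀ ∈ S := ⟨hR.le, fun i => mul_self_nonneg _⟩
  let p : MvPolynomial σ ℝ := C w * (g - ∑ s, C (y s) * X s)
  have hp : ∀ x : σ → ℝ, eval x p = w * eval x g - w * ∑ s, y s * x s := by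
    intro x
    simp only [p, map_mul, map_sub, eval_C, map_sum, eval_X]
    ring
  have hlin : ∀ x ∈ S, |w * ∑ s, y s * x s| < δ * A := by
    intro x hx
    have h1 : |∑ s, y s * x s| ≤ Fintype.card σ * (δ * (R + 1)) := by
      refine (abs_sum_le_sum_abs _ _).trans ?_
      calc ∑ s, |y s * x s| ≤ ∑ _s : σ, δ * (R + 1) := by
            apply sum_le_sum
            intro s _
            rw [abs_mul]
            exact mul_le_mul (hy s).le (hbd x hx.1 s) (abs_nonneg _) hδ0.le
        _ = Fintype.card σ * (δ * (R + 1)) := by simp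
    rw [abs_mul]
    calc |w| * |∑ s, y s * x s| ≤ |w| * (Fintype.card σ * (δ * (R + 1))) :=
          mul_le_mul_of_nonneg_left h1 (abs_nonneg _)
      _ < δ * A := by rw [hA]; nlinarith
  have hδA : δ * A = w * eval x₀ g / 2 := by rw [hδ]; field_simp
  obtain ⟨x, hxS, hmax⟩ := hScomp.exists_isMaxOn ⟨x₀, hx₀S⟩ p.continuous_eval.continuousOn
  have hGx : 0 < w * eval x g := by
    have h1 : eval x₀ p ≤ eval x p := hmax hx₀S
    rw [hp, hp] at h1
    have h2 := abs_lt.1 (hlin x hxS)
    have h3 := abs_lt.1 (hlin x₀ hx₀S)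
    linarith [h2.1, h3.2]
  rw [hG] at hGx
  have hne1 : R - ∑ s, x s ^ 2 ≠ 0 := left_ne_zero_of_mul hGx.ne'
  have hne2 : ∀ i, eval x₀ (f i) * eval x (f i) ≠ 0 := fun i =>
    prod_ne_zero_iff.1 (right_ne_zero_of_mul hGx.ne') i (mem_univ i)
  have hpos : ∀ i, 0 < eval x₀ (f i) * eval x (f i) := fun i =>
    lt_of_le_of_ne (hxS.2 i) (hne2 i).symm
  refine ⟨x, hpos, fun s => ?_⟩
  have hnhds : S ∈ nhds x := by
    have hopen : IsOpen {z : σ → ℝ | ∑ s, z s ^ 2 < R ∧ ∀ i, 0 < eval x₀ (f i) * eval z (f i)} := by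
      apply IsOpen.inter
      · change IsOpen {z : σ → ℝ | ∑ s, z s ^ 2 < R}
        exact isOpen_lt (by fun_prop) continuous_const
      · change IsOpen {z : σ → ℝ | ∀ i, 0 < eval x₀ (f i) * eval z (f i)}
        rw [Set.ofPred_forall]
        exact isOpen_iInter_of_finite fun i =>
          isOpen_lt continuous_const (continuous_const.mul (f i).continuous_eval)
    refine Filter.mem_of_superset (hopen.mem_nhds ⟨?_, hpos⟩) ?_
    · exact lt_of_le_of_ne hxS.1 (fun h => hne1 (by rw [h, sub_self]))
    · intro z hz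
      exact ⟨hz.1.le, fun i => (hz.2 i).le⟩
  have hloc : IsLocalMax (fun z => eval z p) x := hmax.isLocalMax hnhds
  have hloc' : IsLocalMax (fun u => eval (Function.update x s u) p) (x s) := by
    have h1 : IsLocalMax (fun z => eval z p) (Function.update x s (x s)) := by
      rwa [Function.update_eq_self]
    exact h1.comp_continuous (g := fun u => Function.update x s u)
      (continuous_const.update s continuous_id).continuousAt
  have h0 := hloc'.hasDerivAt_eq_zero (hasDerivAt_update p x s (x s))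
  rw [Function.update_eq_self] at h0
  have hd : pderiv s p = C w * (pderiv s g - C (y s)) := by
    simp only [p, pderiv_C_mul, map_sub, map_sum, pderiv_X]
    congr 2
    rw [sum_eq_single s]
    · simp
    · intro b _ hb
      simp [hb]
    · simp
  rw [hd] at h0
  simp only [map_mul, eval_C, map_sub] at h0
  have := (mul_eq_zero.1 h0).resolve_left hw0
  linarith

/-- Points with pairwise different strict sign patterns. -/
theorem card_le_of_strict (f : ι → MvPolynomial σ ℝ) (d : ℕ) (hd : ∀ i, (f i).totalDegree ≤ d)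
    (T : Finset (σ → ℝ)) (hT : ∀ x ∈ T, ∀ i, eval x (f i) ≠ 0)
    (hsep : ∀ x ∈ T, ∀ y ∈ T, (∀ i, 0 < eval x (f i) * eval y (f i)) → x = y) :
    T.card ≤ (Fintype.card σ * (Fintype.card ι * d + 2) + 1) ^ Fintype.card σ := by
  classical
  obtain ⟨R, hR⟩ : ∃ R : ℝ, ∀ x ∈ T, ∑ s, x s ^ 2 < R := by
    obtain ⟨R, hR⟩ := (T.image fun x => ∑ s, x s ^ 2).exists_le
    exact ⟨R + 1, fun x hx => lt_of_le_of_lt (hR _ (mem_image_of_mem _ hx)) (by linarith)⟩
  set g : MvPolynomial σ ℝ := (C R - ∑ s, X s ^ 2) * ∏ i, f i with hg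
  have hgd : g.totalDegree ≤ Fintype.card ι * d + 2 := by
    refine (totalDegree_mul _ _).trans ?_
    have h1 : (C R - ∑ s, X s ^ 2 : MvPolynomial σ ℝ).totalDegree ≤ 2 := by
      refine (totalDegree_sub _ _).trans (max_le (by simp) ?_)
      exact totalDegree_finsetSum_le fun s _ => by simp
    have h2 : (∏ i, f i).totalDegree ≤ Fintype.card ι * d := by
      refine (totalDegree_finsetProd _ _).trans ?_
      calc ∑ i, (f i).totalDegree ≤ ∑ _i : ι, d := sum_le_sum fun i _ => hd i
        _ = Fintype.card ι * d := by simp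
    omega
  have hcrit := fun (x : T) => exists_critical f R x.1 (hR x.1 x.2) (hT x.1 x.2)
  choose δ hδ hδ' using hcrit
  obtain ⟨ε, hε, hεδ⟩ : ∃ ε > 0, ∀ x : T, ε ≤ δ x := by
    rcases isEmpty_or_nonempty T with h | h
    · exact ⟨1, one_pos, fun x => h.elim x⟩
    · obtain ⟨x, hx⟩ := Finite.exists_min δ
      exact ⟨δ x, hδ x, hx⟩
  apply card_le_of_fibers (fun s => pderiv s g) _ _
    (fun s => (totalDegree_pderiv_le g s).trans hgd) hε
  intro y hy
  choose z hz hz' using fun x : T => hδ' x y fun s => (hy s).trans_le (hεδ x)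
  have hzinj : Function.Injective z := by
    intro x x' h
    apply Subtype.ext
    apply hsep _ x.2 _ x'.2
    intro i
    have h1 := hz x i
    have h2 := hz x' i
    rw [← h] at h2
    by_contra hcon
    push Not at hcon
    nlinarith [mul_pos h1 h2, mul_nonneg (neg_nonneg.2 hcon) (mul_self_nonneg (eval (z x) (f i)))]
  refine ⟨univ.image z, ?_, ?_⟩
  · rw [card_image_of_injective _ hzinj]; simp
  · intro x hx s
    obtain ⟨x', -, rfl⟩ := mem_image.1 hx
    exact hz' x' s

/-- Points with pairwise different sign patterns. -/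
theorem card_le_of_sign (f : ι → MvPolynomial σ ℝ) (d : ℕ) (hd : ∀ i, (f i).totalDegree ≤ d)
    (T : Finset (σ → ℝ))
    (hsep : ∀ x ∈ T, ∀ y ∈ T,
      (∀ i, SignType.sign (eval x (f i)) = SignType.sign (eval y (f i))) → x = y) :
    T.card ≤ (Fintype.card σ * (2 * Fintype.card ι * d + 2) + 1) ^ Fintype.card σ := by
  classical
  obtain ⟨ε, hε, hεf⟩ : ∃ ε > 0, ∀ x ∈ T, ∀ i, eval x (f i) ≠ 0 → ε < |eval x (f i)| := by
    let U := (T ×ˢ (univ : Finset ι)).filter fun p => eval p.1 (f p.2) ≠ 0
    rcases U.eq_empty_or_nonempty with h | h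
    · refine ⟨1, one_pos, fun x hx i hi => ?_⟩
      have : (x, i) ∈ U := mem_filter.2 ⟨mem_product.2 ⟨hx, mem_univ _⟩, hi⟩
      rw [h] at this
      exact absurd this (notMem_empty _)
    · obtain ⟨p, hp, hmin⟩ := U.exists_min_image (fun p => |eval p.1 (f p.2)|) h
      have hp0 : 0 < |eval p.1 (f p.2)| := abs_pos.2 (mem_filter.1 hp).2
      refine ⟨|eval p.1 (f p.2)| / 2, by positivity, fun x hx i hi => ?_⟩
      have := hmin (x, i) (mem_filter.2 ⟨mem_product.2 ⟨hx, mem_univ _⟩, hi⟩)
      simp only at this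
      linarith
  let f' : ι ⊕ ι → MvPolynomial σ ℝ := Sum.elim (fun i => f i + C ε) (fun i => f i - C ε)
  have hd' : ∀ i, (f' i).totalDegree ≤ d := by
    rintro (i | i)
    · exact (totalDegree_add _ _).trans (max_le (hd i) (by simp))
    · exact (totalDegree_sub _ _).trans (max_le (hd i) (by simp))
  have tri : ∀ x ∈ T, ∀ i, eval x (f i) < -ε ∨ eval x (f i) = 0 ∨ ε < eval x (f i) := by
    intro x hx i
    by_cases h : eval x (f i) = 0
    · exact Or.inr (Or.inl h)
    · rcases lt_abs.1 (hεf x hx i h) with h1 | h1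
      · exact Or.inr (Or.inr h1)
      · exact Or.inl (by linarith)
  have := card_le_of_strict f' d hd' T ?_ ?_
  · simpa only [Fintype.card_sum, two_mul] using this
  · rintro x hx (i | i)
    · simp only [f', Sum.elim_inl, map_add, eval_C]
      rcases tri x hx i with h | h | h
      · exact ne_of_lt (by linarith)
      · exact ne_of_gt (by linarith)
      · exact ne_of_gt (by linarith)
    · simp only [f', Sum.elim_inr, map_sub, eval_C]
      rcases tri x hx i with h | h | h
      · exact ne_of_lt (by linarith)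
      · exact ne_of_lt (by linarith)
      · exact ne_of_gt (by linarith)
  · intro x hx y hy h
    apply hsep x hx y hy
    intro i
    have h1 := h (Sum.inl i)
    have h2 := h (Sum.inr i)
    simp only [f', Sum.elim_inl, Sum.elim_inr, map_add, map_sub, eval_C] at h1 h2
    rcases tri x hx i with a | a | a <;> rcases tri y hy i with b | b | b
    · rw [sign_neg (by linarith), sign_neg (by linarith)]
    · exfalso; nlinarith
    · exfalso; nlinarith
    · exfalso; nlinarith
    · rw [a, b]
    · exfalso; nlinarith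
    · exfalso; nlinarith
    · exfalso; nlinarith
    · rw [sign_pos (by linarith), sign_pos (by linarith)]

end Real

end Pool.Agent.Lib.SignPatterns
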